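import Pool.Agent.Helper33.DZ.Stmts

/-! The last `dS m` double zeta values are combinations of the others (module ELIMB). -/

namespace Pool.Agent.Helper33.DZ

theorem elimb_hh {w : ℕ} {c : ℕ → ℚ} (hw : Even w) (hc : Per w c)
    (hanti : ∀ a, a ≤ w → c (w - a) = -c a) {j d : ℕ} (hjd : j ≤ d)
    (hdw : 2 * d ≤ w) (h1 : c (2 * j) = 1) (h0 : ∀ i, 1 ≤ i → i ≤ d → i ≠ j → c (2 * i) = 0) :
    (∀ i, 1 ≤ i → i < j → hh w c (w - 2 * i) = 0) ∧ hh w c (w - 2 * j) = -1 := by
  -- values of `c` near `w`
  have hval : ∀ n, n ≤ w → w - 2 * j < n → c n = 0 := by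
    intro n hn hlt
    rcases Nat.even_or_odd n with he | ho
    · obtain ⟨u, hu⟩ := hw
      obtain ⟨v, hv⟩ := he
      rcases Nat.eq_or_lt_of_le hn with h | h
      · exact hc.big n h.ge
      · have h3 : n = w - 2 * (u - v) := by omega
        rw [h3, hanti (2 * (u - v)) (by omega), h0 (u - v) (by omega) (by omega) (by omega),
          neg_zero]
    · exact hc.odd n ho
  constructor
  · intro i hi hij
    unfold hh
    refine Finset.sum_eq_zero fun n hn => ?_
    have hnw : n ≤ w := by
      have := Finset.mem_range.1 hn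
      omega
    rcases lt_or_ge n (w - 2 * i) with h | h
    · rw [Nat.choose_eq_zero_of_lt h, Nat.cast_zero, zero_mul]
    · rw [hval n hnw (by omega), mul_zero]
  · unfold hh
    rw [Finset.sum_eq_single (w - 2 * j)]
    · rw [Nat.choose_self, Nat.cast_one, one_mul, hanti _ (by omega), h1]
    · intro n hn hne
      have hnw : n ≤ w := by
        have := Finset.mem_range.1 hn
        omega
      rcases lt_or_gt_of_ne hne with h | h
      · rw [Nat.choose_eq_zero_of_lt h, Nat.cast_zero, zero_mul]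
      · rw [hval n hnw h, mul_zero]
    · intro hn
      exact absurd (Finset.mem_range.2 (by omega)) hn

theorem st_ELIMB (hA : ST_ANTI) (hR : ST_REL) (hE : ST_EXIST) (hD : ST_DIM) : ST_ELIMB := by
  classical
  intro m hm
  set d := dS m with hd
  have h6 : 6 * d ≤ m := (hD m).1
  set S : Submodule ℚ ℝ := Submodule.span ℚ (tt m '' (Finset.range (m - 1 - d) : Set ℕ)) with hS
  have hgen : ∀ i, i < m - 1 - d → tt m i ∈ S := fun i hi =>
    Submodule.subset_span ⟨i, by simpa using hi, rfl⟩
  suffices H : ∀ t j, 1 ≤ j → j ≤ d → d - j = t → tt m (m - 1 - j) ∈ S from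
    fun j h1 h2 => H (d - j) j h1 h2 rfl
  intro t
  induction t using Nat.strong_induction_on with
  | _ t ih =>
    intro j hj1 hjd ht
    have ih' : ∀ j', j < j' → j' ≤ d → tt m (m - 1 - j') ∈ S := fun j' h1 h2 =>
      ih (d - j') (by omega) j' (by omega) h2 rfl
    -- the period polynomial
    set N : Finset ℕ := (Finset.Icc 1 d).image (fun i => 2 * i) with hN
    obtain ⟨c, hc, hc1, hc0⟩ := hE m N (by
      intro n hn
      obtain ⟨i, hi, rfl⟩ := Finset.mem_image.1 hn
      obtain ⟨hi1, hi2⟩ := Finset.mem_Icc.1 hi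
      exact ⟨even_two_mul i, by omega, by omega⟩) (by
      refine Finset.card_image_le.trans ?_
      rw [Nat.card_Icc]
      omega) (2 * j) (Finset.mem_image.2 ⟨j, Finset.mem_Icc.2 ⟨hj1, hjd⟩, rfl⟩)
    obtain ⟨hanti, -, -⟩ := hA _ c hc
    have hw : Even (2 * m - 2) := ⟨m - 1, by omega⟩
    obtain ⟨hh0, hh1⟩ := elimb_hh hw hc hanti hjd (by omega) hc1 (fun i h1 h2 h3 =>
      hc0 (2 * i) (Finset.mem_image.2 ⟨i, Finset.mem_Icc.2 ⟨h1, h2⟩, rfl⟩) (by omega))
    obtain ⟨κ, hκ⟩ := hR m c hm hc
    have htt : ∀ i, dz (2 * i + 3) (2 * m - 2 * i - 3) = tt m (i + 1) := by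
      intro i
      rw [tt, if_neg (by omega)]
      congr 1
    have htt0 : zt (2 * m) = tt m 0 := by rw [tt, if_pos rfl]
    simp only [htt, htt0] at hκ
    -- isolate the term of `j`
    have hmem : m - 2 - j ∈ Finset.range (m - 2) := Finset.mem_range.2 (by omega)
    rw [← Finset.add_sum_erase _ _ hmem] at hκ
    have hrest : ∑ i ∈ (Finset.range (m - 2)).erase (m - 2 - j),
        ((hh (2 * m - 2) c (2 * i + 2) / ((2 * m - 2).choose (2 * i + 2) : ℚ) : ℚ) : ℝ) *
          tt m (i + 1) ∈ S := by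
      refine Submodule.sum_mem _ fun i hi => ?_
      obtain ⟨hine, hir⟩ := Finset.mem_erase.1 hi
      have hi2 : i < m - 2 := Finset.mem_range.1 hir
      rw [← Rat.smul_def]
      rcases lt_or_gt_of_ne hine with h | h
      · apply Submodule.smul_mem
        by_cases h4 : i + 1 < m - 1 - d
        · exact hgen _ h4
        · have h5 := ih' (m - 2 - i) (by omega) (by omega)
          have e : m - 1 - (m - 2 - i) = i + 1 := by omega
          rwa [e] at h5
      · have h5 := hh0 (m - 2 - i) (by omega) (by omega)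
        have e : 2 * m - 2 - 2 * (m - 2 - i) = 2 * i + 2 := by omega
        rw [e] at h5
        rw [h5, zero_div, zero_smul]
        exact S.zero_mem
    have e1 : 2 * (m - 2 - j) + 2 = 2 * m - 2 - 2 * j := by omega
    have e2 : m - 2 - j + 1 = m - 1 - j := by omega
    rw [e1, hh1, e2] at hκ
    set q : ℚ := -1 / ((2 * m - 2).choose (2 * m - 2 - 2 * j) : ℚ) with hq
    have hq0 : q ≠ 0 := by
      have hch : ((2 * m - 2).choose (2 * m - 2 - 2 * j) : ℚ) ≠ 0 := by
        have : 0 < (2 * m - 2).choose (2 * m - 2 - 2 * j) := Nat.choose_pos (by omega)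
        exact_mod_cast this.ne'
      rw [hq]
      exact div_ne_zero (by norm_num) hch
    have hfin : q • tt m (m - 1 - j) ∈ S := by
      have e3 : q • tt m (m - 1 - j) = κ • tt m 0 -
          ∑ i ∈ (Finset.range (m - 2)).erase (m - 2 - j),
            ((hh (2 * m - 2) c (2 * i + 2) / ((2 * m - 2).choose (2 * i + 2) : ℚ) : ℚ) : ℝ) *
              tt m (i + 1) := by
        rw [Rat.smul_def, Rat.smul_def, ← hκ]
        ring
      rw [e3]
      exact Submodule.sub_mem _ (Submodule.smul_mem _ _ (hgen 0 (by omega))) hrest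
    exact (Submodule.smul_mem_iff _ hq0).1 hfin

end Pool.Agent.Helper33.DZ
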